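import Pool.Agent.H79.EF.Defs

set_option autoImplicit false

open Finset

namespace Pool.Agent.H84.EF

open Pool.Agent.H93.EF (Nb)

theorem nb_nat (n j : ℕ) : Nb n (j : ℤ) = ∑ i ∈ range (j + 1), (n.choose i : ℝ) := by
  unfold Nb
  have : ((j : ℤ) + 1).toNat = j + 1 := by omega
  rw [this]

theorem nb_pos (n j : ℕ) : 0 < Nb n (j : ℤ) := by
  rw [nb_nat, Finset.sum_range_succ']
  have : (0 : ℝ) ≤ ∑ i ∈ range j, (n.choose (i + 1) : ℝ) :=
    Finset.sum_nonneg fun i _ => by positivity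
  simp only [Nat.choose_zero_right, Nat.cast_one]
  linarith

theorem nb_neg (n : ℕ) : Nb n (-1) = 0 := by
  unfold Nb
  simp

theorem nb_succ (n j : ℕ) : Nb n ((j : ℤ) + 1) = Nb n j + n.choose (j + 1) := by
  have : ((j : ℤ) + 1) = ((j + 1 : ℕ) : ℤ) := by push_cast; ring
  rw [this, nb_nat, nb_nat, Finset.sum_range_succ]

theorem nb_pred (n j : ℕ) : Nb n ((j : ℤ) - 1) = Nb n j - n.choose j := by
  cases j with
  | zero => simp [Nb]
  | succ j =>
    have : (((j + 1 : ℕ) : ℤ) - 1) = (j : ℤ) := by push_cast; ring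
    rw [this]
    have h := nb_succ n j
    have h2 : ((j + 1 : ℕ) : ℤ) = (j : ℤ) + 1 := by push_cast; ring
    rw [h2, h]
    ring

theorem choose_succ_real (n j : ℕ) (hj : j ≤ n) :
    (n.choose (j + 1) : ℝ) * (j + 1) = n.choose j * (n - j) := by
  have h := Nat.choose_succ_right_eq n j
  have h2 : ((n.choose (j + 1) * (j + 1) : ℕ) : ℝ) = ((n.choose j * (n - j) : ℕ) : ℝ) := by
    rw [h]
  rw [Nat.cast_mul, Nat.cast_mul, Nat.cast_sub hj] at h2
  push_cast at h2
  exact h2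

theorem nb_succ' (n j : ℕ) (hj : j ≤ n) :
    Nb n ((j : ℤ) + 1) = Nb n j + (n - j) / (j + 1) * n.choose j := by
  rw [nb_succ]
  have h := choose_succ_real n j hj
  have : (0 : ℝ) < (j : ℝ) + 1 := by positivity
  field_simp
  linarith

theorem choose_le_nb (n j : ℕ) : (n.choose j : ℝ) ≤ Nb n j := by
  rw [nb_nat, Finset.sum_range_succ]
  have : (0 : ℝ) ≤ ∑ i ∈ range j, (n.choose i : ℝ) :=
    Finset.sum_nonneg fun i _ => by positivity
  linarith

/-- the elementary upper bound `r_m(j) ≤ j / (m - j + 1)` -/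
theorem nb_pred_le (n j : ℕ) (hj : j ≤ n) :
    Nb n ((j : ℤ) - 1) * (n - j + 1) ≤ j * Nb n j := by
  induction j with
  | zero =>
    rw [nb_pred]
    simp [Nb]
  | succ j ih =>
    have e1 : (((j + 1 : ℕ) : ℤ) - 1) = (j : ℤ) := by push_cast; ring
    have e2 : ((j + 1 : ℕ) : ℤ) = (j : ℤ) + 1 := by push_cast; ring
    rw [e1, e2, nb_succ' n j (by omega)]
    have ih' := ih (by omega)
    rw [nb_pred] at ih'
    have h0 : (0 : ℝ) < Nb n j := nb_pos n j
    have hnj : (j : ℝ) + 1 ≤ n := by exact_mod_cast hj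
    have hj1 : (0 : ℝ) < (j : ℝ) + 1 := by positivity
    have e3 : ((j + 1 : ℕ) : ℝ) * (Nb n j + (n - j) / (j + 1) * n.choose j) =
        (j + 1) * Nb n j + (n - j) * n.choose j := by
      push_cast
      field_simp
    rw [e3]
    push_cast
    have hc : (0 : ℝ) ≤ n.choose j := by positivity
    nlinarith

end Pool.Agent.H84.EF
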