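import Pool.Agent.H84.EF.Stage1

set_option autoImplicit false

open Finset

namespace Pool.Agent.H84.EF

open Pool.Agent.H93.EF (Nb)
open Pool.Agent.H79.EF (Good HHj Fin5)

/-- assembly of `num3` from the statement about `Fin5` -/
theorem num3_of (hF : ∀ t : ℕ, ∃ c : ℕ, ∃ ρ : ℝ, Fin5 3 t (7 * (t - 1) / 11 - 1) c (17 / 72) ρ)
    (t : ℕ) : ∃ α₁ c : ℕ, ∃ ρ : ℝ, Fin5 3 t α₁ c (17 / 72) ρ ∧
      ∀ α < α₁, Good (17 / 72) α (Nb (t + α)) := by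
  obtain ⟨c, ρ, h⟩ := hF t
  refine ⟨7 * (t - 1) / 11 - 1, c, ρ, h, fun α hα => good_of_le ?_⟩
  omega

/-- the case `t = 0` -/
theorem fin_zero : Fin5 3 0 (7 * (0 - 1) / 11 - 1) 0 (17 / 72) 1 := by
  refine ⟨by norm_num, ?_, ?_, Or.inl (by norm_num)⟩
  · have e : (Int.toNat 2) = 2 := rfl
    norm_num [Nb, Finset.sum_range_succ, e]
  · norm_num [Nb]

end Pool.Agent.H84.EF
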