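import Pool.Agent.H84.EF.NbBasic

set_option autoImplicit false

open Finset

namespace Pool.Agent.H84.EF

open Pool.Agent.H93.EF (Nb)
open Pool.Agent.H79.EF (Good HHj Fin5)

/-- log-concavity of a product of powers of positive affine functions, between `0` and `1` -/
theorem logc {a b β : ℝ} (ha : 0 < a) (hb : 0 < b) (n m : ℕ) (h : 1 ≤ a ^ n * b ^ m)
    (h0 : 0 ≤ β) (h1 : β ≤ 1) : 1 ≤ (1 + β * (a - 1)) ^ n * (1 + β * (b - 1)) ^ m := by
  have key : ∀ {c : ℝ}, 0 < c → c ^ β ≤ 1 + β * (c - 1) := by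
    intro c hc
    have := Real.geom_mean_le_arith_mean2_weighted (w₁ := 1 - β) (w₂ := β) (p₁ := 1) (p₂ := c)
      (by linarith) h0 zero_le_one hc.le (by ring)
    rw [Real.one_rpow, one_mul] at this
    linarith
  have ha' := key ha
  have hb' := key hb
  have e1 : (a ^ β) ^ n * (b ^ β) ^ m = (a ^ n * b ^ m) ^ β := by
    rw [Real.mul_rpow (by positivity) (by positivity), ← Real.rpow_natCast (a ^ β),
      ← Real.rpow_natCast (b ^ β), ← Real.rpow_mul ha.le, ← Real.rpow_mul hb.le,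
      ← Real.rpow_natCast a, ← Real.rpow_natCast b, ← Real.rpow_mul ha.le, ← Real.rpow_mul hb.le,
      mul_comm β, mul_comm β]
  calc (1 : ℝ) ≤ (a ^ n * b ^ m) ^ β := Real.one_le_rpow h h0
    _ = (a ^ β) ^ n * (b ^ β) ^ m := e1.symm
    _ ≤ _ := by
      apply mul_le_mul
      · exact pow_le_pow_left₀ (by positivity) ha' _
      · exact pow_le_pow_left₀ (by positivity) hb' _
      · positivity
      · exact pow_nonneg (le_trans (by positivity) ha') _

/-- the step inequality from its value at `r = 0` -/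
theorem step_ineq {N c lam : ℝ} (hN : 0 < N) (hc0 : 0 ≤ c) (hcN : c ≤ N) (hl : 0 ≤ lam)
    (n m : ℕ) (h : 1 ≤ (1 + 17 / 89 * lam) ^ n * (72 / 89 : ℝ) ^ m) :
    ((1 + 17 / 72) * N) ^ (n + m) ≤
      (N + 17 / 72 * (N + lam * c)) ^ n * (N + 17 / 72 * (N - c)) ^ m := by
  have h1 := logc (a := 1 + 17 / 89 * lam) (b := 72 / 89) (β := c / N) (by positivity)
    (by norm_num) n m h (by positivity) (by rw [div_le_one hN]; exact hcN)
  have e1 : N + 17 / 72 * (N + lam * c) =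
      ((1 + 17 / 72) * N) * (1 + c / N * (1 + 17 / 89 * lam - 1)) := by
    field_simp
    ring
  have e2 : N + 17 / 72 * (N - c) = ((1 + 17 / 72) * N) * (1 + c / N * (72 / 89 - 1)) := by
    field_simp
    ring
  rw [e1, e2, mul_pow ((1 + 17 / 72) * N) _ n, mul_pow ((1 + 17 / 72) * N) _ m]
  have h2 := mul_le_mul_of_nonneg_left h1
    (show (0 : ℝ) ≤ ((1 + 17 / 72) * N) ^ (n + m) by positivity)
  rw [mul_one] at h2
  refine h2.trans (le_of_eq ?_)
  rw [pow_add]
  ring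

theorem num_a {lam : ℝ} (h : 29 / 7 ≤ lam) :
    1 ≤ (1 + 17 / 89 * lam) ^ 4 * (72 / 89 : ℝ) ^ 11 := by
  have h1 : (1116 / 623 : ℝ) ≤ 1 + 17 / 89 * lam := by linarith
  have h2 : (1116 / 623 : ℝ) ^ 4 ≤ (1 + 17 / 89 * lam) ^ 4 := pow_le_pow_left₀ (by norm_num) h1 4
  have h3 : (1 : ℝ) ≤ (1116 / 623 : ℝ) ^ 4 * (72 / 89 : ℝ) ^ 11 := by norm_num
  exact h3.trans (mul_le_mul_of_nonneg_right h2 (by positivity))

theorem num_b {lam : ℝ} (h : 3 / 2 ≤ lam) :
    1 ≤ (1 + 17 / 89 * lam) ^ 7 * (72 / 89 : ℝ) ^ 8 := by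
  have h1 : (229 / 178 : ℝ) ≤ 1 + 17 / 89 * lam := by linarith
  have h2 : (229 / 178 : ℝ) ^ 7 ≤ (1 + 17 / 89 * lam) ^ 7 := pow_le_pow_left₀ (by norm_num) h1 7
  have h3 : (1 : ℝ) ≤ (229 / 178 : ℝ) ^ 7 * (72 / 89 : ℝ) ^ 8 := by norm_num
  exact h3.trans (mul_le_mul_of_nonneg_right h2 (by positivity))

/-- stage 1: the step condition holds for `α + 2 ≤ 7 (t - 1) / 11` -/
theorem good_of_le {t α : ℕ} (h : 11 * (α + 2) ≤ 7 * (t - 1)) :
    Good (17 / 72) α (Nb (t + α)) := by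
  have ht : 1 ≤ t := by omega
  have hreal : (11 : ℝ) * (α + 2) ≤ 7 * (t - 1) := by
    have : ((11 * (α + 2) : ℕ) : ℝ) ≤ ((7 * (t - 1) : ℕ) : ℝ) := by exact_mod_cast h
    rw [Nat.cast_mul, Nat.cast_mul, Nat.cast_sub ht] at this
    push_cast at this
    linarith
  constructor
  · intro j hj
    have hj' : (2 : ℝ) * j ≤ α := by exact_mod_cast hj
    have hj1 : (0 : ℝ) < (j : ℝ) + 1 := by positivity
    have hlam : (29 / 7 : ℝ) ≤ (((t + α : ℕ) : ℝ) - j) / (j + 1) := by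
      rw [le_div_iff₀ hj1]
      push_cast
      linarith
    have := step_ineq (nb_pos (t + α) j) (by positivity) (choose_le_nb (t + α) j)
      (by linarith) 4 11 (num_a hlam)
    rw [← nb_succ' _ _ (by omega), ← nb_pred] at this
    exact this
  · intro j hj1' hj
    have hj' : (j : ℝ) ≤ α := by exact_mod_cast hj
    have hj1 : (0 : ℝ) < (j : ℝ) + 1 := by positivity
    have hlam : (3 / 2 : ℝ) ≤ (((t + α : ℕ) : ℝ) - j) / (j + 1) := by
      rw [le_div_iff₀ hj1]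
      push_cast
      linarith
    have := step_ineq (nb_pos (t + α) j) (by positivity) (choose_le_nb (t + α) j)
      (by linarith) 7 8 (num_b hlam)
    rw [← nb_succ' _ _ (by omega), ← nb_pred] at this
    exact this

end Pool.Agent.H84.EF
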